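import Mathlib

/-!
# MP_859019, exponents between 5 and 6: the constant `|c| ∫ w z ^ 2`
-/

set_option autoImplicit false

open MeasureTheory Set

namespace Pool.Agent.Lib_helper5.R56

/-- the integrand `z ^ (s - 1) t ^ (n - 1) exp (- (1 + z) t)` -/
noncomputable def FF (s : ℝ) (n : ℕ) (t z : ℝ) : ℝ :=
  z ^ (s - 1) * (t ^ ((n : ℝ) - 1) * Real.exp (-((1 + z) * t)))

theorem FF_meas (s : ℝ) (n : ℕ) : Measurable (Function.uncurry (FF s n)) := by
  unfold FF
  refine Measurable.mul ?_ (Measurable.mul ?_ ?_)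
  · exact (measurable_snd).pow_const _
  · exact (measurable_fst).pow_const _
  · exact Real.measurable_exp.comp (((measurable_const.add measurable_snd).mul measurable_fst).neg)

theorem FF_nonneg {s : ℝ} {n : ℕ} {t z : ℝ} (ht : 0 < t) (hz : 0 < z) : 0 ≤ FF s n t z := by
  unfold FF; positivity

/-- integral in `z` -/
theorem FF_z {s : ℝ} {n : ℕ} (hs : 0 < s) {t : ℝ} (ht : 0 < t) :
    IntegrableOn (FF s n t) (Ioi 0) ∧ ∫ z in Ioi (0 : ℝ), FF s n t z =
      Real.Gamma s * (t ^ ((n : ℝ) - s - 1) * Real.exp (-t)) := by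
  have e : ∀ z, FF s n t z = (t ^ ((n : ℝ) - 1) * Real.exp (-t)) *
      (z ^ (s - 1) * Real.exp (-(t * z))) := by
    intro z
    unfold FF
    rw [show -((1 + z) * t) = -t + -(t * z) by ring, Real.exp_add]
    ring
  have hi := Real.integral_rpow_mul_exp_neg_mul_Ioi hs ht
  have hint : IntegrableOn (fun z : ℝ => z ^ (s - 1) * Real.exp (-(t * z))) (Ioi 0) := by
    by_contra hcon
    have h0 := integral_undef hcon
    rw [hi] at h0
    have : 0 < (1 / t) ^ s * Real.Gamma s := mul_pos (Real.rpow_pos_of_pos (by positivity) _)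
      (Real.Gamma_pos_of_pos hs)
    linarith
  constructor
  · exact (hint.const_mul _).congr (Filter.Eventually.of_forall fun z => (e z).symm)
  · simp only [e]
    rw [integral_const_mul, hi, show (n : ℝ) - s - 1 = ((n : ℝ) - 1) + (-s) by ring,
      Real.rpow_add ht, one_div, Real.inv_rpow ht.le, Real.rpow_neg ht.le]
    ring

/-- integral in `t` -/
theorem FF_t {s : ℝ} {n : ℕ} (hn : 0 < n) {z : ℝ} (hz : 0 < z) :
    ∫ t in Ioi (0 : ℝ), FF s n t z = Real.Gamma n * (z ^ (s - 1) / (1 + z) ^ n) := by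
  have e : ∀ t, FF s n t z = z ^ (s - 1) * (t ^ ((n : ℝ) - 1) * Real.exp (-((1 + z) * t))) :=
    fun t => rfl
  simp only [e]
  rw [integral_const_mul, Real.integral_rpow_mul_exp_neg_mul_Ioi (by exact_mod_cast hn)
    (by positivity), Real.rpow_natCast, one_div, inv_pow]
  ring

theorem FF_int {s : ℝ} {n : ℕ} (hs : 0 < s) (hsn : s < n) :
    Integrable (Function.uncurry (FF s n))
      ((volume.restrict (Ioi (0 : ℝ))).prod (volume.restrict (Ioi (0 : ℝ)))) := by
  rw [integrable_prod_iff (FF_meas s n).aestronglyMeasurable]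
  have hg := Real.GammaIntegral_convergent (s := (n : ℝ) - s) (by linarith)
  constructor
  · filter_upwards [ae_restrict_mem measurableSet_Ioi] with t ht
    exact (FF_z hs ht).1
  · refine (hg.const_mul (Real.Gamma s)).congr ?_
    filter_upwards [ae_restrict_mem measurableSet_Ioi] with t ht
    have h1 : ∫ z in Ioi (0 : ℝ), ‖Function.uncurry (FF s n) (t, z)‖ =
        ∫ z in Ioi (0 : ℝ), FF s n t z := by
      refine setIntegral_congr_fun measurableSet_Ioi fun z hz => ?_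
      exact Real.norm_of_nonneg (FF_nonneg ht hz)
    rw [h1, (FF_z hs ht).2]
    ring

/-- the Beta integral on the half line -/
theorem beta_int {s : ℝ} {n : ℕ} (hs : 0 < s) (hsn : s < n) :
    IntegrableOn (fun z : ℝ => z ^ (s - 1) / (1 + z) ^ n) (Ioi 0) ∧
      ∫ z in Ioi (0 : ℝ), z ^ (s - 1) / (1 + z) ^ n =
        Real.Gamma s * Real.Gamma (n - s) / Real.Gamma n := by
  have hn : 0 < n := by
    rcases Nat.eq_zero_or_pos n with h | h
    · subst h; norm_num at hsn; linarith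
    · exact h
  have hG : 0 < Real.Gamma n := Real.Gamma_pos_of_pos (by exact_mod_cast hn)
  have hF := FF_int hs hsn
  constructor
  · have h1 := hF.integral_prod_right
    have h2 : IntegrableOn (fun z : ℝ => Real.Gamma n * (z ^ (s - 1) / (1 + z) ^ n)) (Ioi 0) := by
      refine h1.congr ?_
      filter_upwards [ae_restrict_mem measurableSet_Ioi] with z hz
      exact FF_t hn hz
    refine (h2.const_mul (Real.Gamma n)⁻¹).congr (Filter.Eventually.of_forall fun z => ?_)
    field_simp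
  · have h3 := integral_integral_swap hF
    have h4 : ∫ t in Ioi (0 : ℝ), ∫ z in Ioi (0 : ℝ), FF s n t z =
        Real.Gamma s * Real.Gamma (n - s) := by
      rw [Real.Gamma_eq_integral (by linarith : 0 < (n : ℝ) - s), ← integral_const_mul]
      refine setIntegral_congr_fun measurableSet_Ioi fun t ht => ?_
      rw [(FF_z hs ht).2]
      ring
    have h5 : ∫ z in Ioi (0 : ℝ), ∫ t in Ioi (0 : ℝ), FF s n t z =
        Real.Gamma n * ∫ z in Ioi (0 : ℝ), z ^ (s - 1) / (1 + z) ^ n := by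
      rw [← integral_const_mul]
      exact setIntegral_congr_fun measurableSet_Ioi fun z hz => FF_t hn hz
    rw [h4, h5] at h3
    rw [h3]
    field_simp

/-- the weight `w p z = z ^ (3 - p) / ((1 + z) ^ 3 (1 + 2 z))` -/
noncomputable def ww (p z : ℝ) : ℝ := z ^ (3 - p) / ((1 + z) ^ 3 * (1 + 2 * z))

/-- `∫ z ^ (s - 1) / (1 + 2 z)` -/
theorem half_int {s : ℝ} (hs : 0 < s) (hs1 : s < 1) :
    IntegrableOn (fun z : ℝ => z ^ (s - 1) / (1 + 2 * z)) (Ioi 0) ∧
      ∫ z in Ioi (0 : ℝ), z ^ (s - 1) / (1 + 2 * z) =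
        (2 : ℝ) ^ (-s) * (Real.Gamma s * Real.Gamma (1 - s)) := by
  obtain ⟨h1, h2⟩ := beta_int (s := s) (n := 1) hs (by exact_mod_cast hs1)
  simp only [pow_one, Nat.cast_one, Real.Gamma_one, div_one] at h1 h2
  have e : ∀ z ∈ Ioi (0 : ℝ), (2 : ℝ) ^ (1 - s) * ((2 * z) ^ (s - 1) / (1 + 2 * z)) =
      z ^ (s - 1) / (1 + 2 * z) := by
    intro z hz
    rw [Real.mul_rpow (by norm_num) (le_of_lt hz), show (1 : ℝ) - s = -(s - 1) by ring,
      Real.rpow_neg (by norm_num)]
    have : (0 : ℝ) < (2 : ℝ) ^ (s - 1) := Real.rpow_pos_of_pos (by norm_num) _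
    field_simp
  constructor
  · have h3 : IntegrableOn (fun z : ℝ => (2 * z) ^ (s - 1) / (1 + 2 * z)) (Ioi 0) := by
      have := (integrableOn_Ioi_comp_mul_left_iff (fun z : ℝ => z ^ (s - 1) / (1 + z)) 0
        (by norm_num : (0 : ℝ) < 2)).2 (by simpa using h1)
      exact this
    exact IntegrableOn.congr_fun (h3.const_mul ((2 : ℝ) ^ (1 - s))) e measurableSet_Ioi
  · rw [← setIntegral_congr_fun measurableSet_Ioi e, integral_const_mul]
    have h4 := integral_comp_mul_left_Ioi (fun z : ℝ => z ^ (s - 1) / (1 + z)) 0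
      (by norm_num : (0 : ℝ) < 2)
    rw [mul_zero] at h4
    rw [h4, h2, smul_eq_mul, show (1 : ℝ) - s = -s + 1 by ring, Real.rpow_add (by norm_num),
      Real.rpow_one]
    ring

theorem ww_sq {p z : ℝ} (hz : 0 < z) : ww p z * z ^ 2 =
    8 * (z ^ ((6 - p) - 1) / (1 + 2 * z)) - 4 * (z ^ ((6 - p) - 1) / (1 + z) ^ 1) -
      2 * (z ^ ((6 - p) - 1) / (1 + z) ^ 2) - z ^ ((6 - p) - 1) / (1 + z) ^ 3 := by
  have e : z ^ ((6 - p) - 1) = z ^ (3 - p) * z ^ 2 := by
    rw [show (6 - p) - 1 = (3 - p) + 2 by ring, Real.rpow_add hz]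
    norm_num
  unfold ww
  rw [e]
  field_simp
  ring

/-- the moment of the weight: `|c| ∫ w z ^ 2 = k2` for `5 < p < 6` -/
theorem ww_moment {p : ℝ} (h5 : 5 < p) (h6 : p < 6) :
    IntegrableOn (fun z : ℝ => ww p z * z ^ 2) (Ioi 0) ∧
      (-Real.sin (Real.pi * p) / Real.pi) * ∫ z in Ioi (0 : ℝ), ww p z * z ^ 2 =
        (2 : ℝ) ^ (p - 3) + 2 * p - 4 - p * (p - 1) / 2 := by
  have s0 : 0 < 6 - p := by linarith
  have s1 : 6 - p < 1 := by linarith
  obtain ⟨i0, j0⟩ := half_int s0 s1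
  obtain ⟨i1, j1⟩ := beta_int (s := 6 - p) (n := 1) s0 (by norm_num; linarith)
  obtain ⟨i2, j2⟩ := beta_int (s := 6 - p) (n := 2) s0 (by norm_num; linarith)
  obtain ⟨i3, j3⟩ := beta_int (s := 6 - p) (n := 3) s0 (by norm_num; linarith)
  have I1 : IntegrableOn (fun z : ℝ => 8 * (z ^ ((6 - p) - 1) / (1 + 2 * z)) -
      4 * (z ^ ((6 - p) - 1) / (1 + z) ^ 1)) (Ioi 0) := (i0.const_mul 8).sub (i1.const_mul 4)
  have I2 : IntegrableOn (fun z : ℝ => 8 * (z ^ ((6 - p) - 1) / (1 + 2 * z)) -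
      4 * (z ^ ((6 - p) - 1) / (1 + z) ^ 1) - 2 * (z ^ ((6 - p) - 1) / (1 + z) ^ 2)) (Ioi 0) :=
    I1.sub (i2.const_mul 2)
  have k : IntegrableOn (fun z : ℝ => 8 * (z ^ ((6 - p) - 1) / (1 + 2 * z)) -
      4 * (z ^ ((6 - p) - 1) / (1 + z) ^ 1) - 2 * (z ^ ((6 - p) - 1) / (1 + z) ^ 2) -
      z ^ ((6 - p) - 1) / (1 + z) ^ 3) (Ioi 0) := I2.sub i3
  have hc : ∀ z ∈ Ioi (0 : ℝ), ww p z * z ^ 2 =
      8 * (z ^ ((6 - p) - 1) / (1 + 2 * z)) - 4 * (z ^ ((6 - p) - 1) / (1 + z) ^ 1) -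
      2 * (z ^ ((6 - p) - 1) / (1 + z) ^ 2) - z ^ ((6 - p) - 1) / (1 + z) ^ 3 :=
    fun z hz => ww_sq hz
  constructor
  · exact IntegrableOn.congr_fun k (fun z hz => (hc z hz).symm) measurableSet_Ioi
  · rw [setIntegral_congr_fun measurableSet_Ioi hc, integral_sub I2 i3,
      integral_sub I1 (i2.const_mul 2), integral_sub (i0.const_mul 8)
      (i1.const_mul 4), integral_const_mul, integral_const_mul, integral_const_mul, j0, j1, j2, j3]
    have g2 : Real.Gamma ((2 : ℕ) - (6 - p)) = (1 - (6 - p)) * Real.Gamma (1 - (6 - p)) := by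
      rw [show ((2 : ℕ) : ℝ) - (6 - p) = (1 - (6 - p)) + 1 by push_cast; ring,
        Real.Gamma_add_one (by linarith)]
    have g3 : Real.Gamma ((3 : ℕ) - (6 - p)) =
        (2 - (6 - p)) * ((1 - (6 - p)) * Real.Gamma (1 - (6 - p))) := by
      rw [show ((3 : ℕ) : ℝ) - (6 - p) = ((1 - (6 - p)) + 1) + 1 by push_cast; ring,
        Real.Gamma_add_one (by linarith), Real.Gamma_add_one (by linarith)]
      ring
    have g1 : Real.Gamma ((1 : ℕ) - (6 - p)) = Real.Gamma (1 - (6 - p)) := by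
      rw [Nat.cast_one]
    have f1 : Real.Gamma ((1 : ℕ) : ℝ) = 1 := by rw [Nat.cast_one, Real.Gamma_one]
    have f2 : Real.Gamma ((2 : ℕ) : ℝ) = 1 := by
      have := Real.Gamma_nat_eq_factorial 1
      norm_num at this ⊢
      try exact this
    have f3 : Real.Gamma ((3 : ℕ) : ℝ) = 2 := by
      have := Real.Gamma_nat_eq_factorial 2
      norm_num [Nat.factorial] at this ⊢
      try exact this
    rw [g1, g2, g3, f1, f2, f3]
    have hr := Real.Gamma_mul_Gamma_one_sub (6 - p)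
    have hs : Real.sin (Real.pi * (6 - p)) = -Real.sin (Real.pi * p) := by
      rw [show Real.pi * (6 - p) = -(Real.pi * p) + (3 : ℕ) * (2 * Real.pi) by push_cast; ring,
        Real.sin_add_nat_mul_two_pi, Real.sin_neg]
    rw [hs] at hr
    have hs0 : 0 < -Real.sin (Real.pi * p) := by
      rw [← hs]
      exact Real.sin_pos_of_pos_of_lt_pi (by positivity) (by nlinarith [Real.pi_pos])
    have e8 : (8 : ℝ) * (2 : ℝ) ^ (-(6 - p)) = (2 : ℝ) ^ (p - 3) := by
      rw [show p - 3 = -(6 - p) + 3 by ring, Real.rpow_add (by norm_num)]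
      norm_num
      ring
    have hpi := Real.pi_pos
    set G := Real.Gamma (6 - p) * Real.Gamma (1 - (6 - p)) with hG
    have hne : Real.sin (Real.pi * p) ≠ 0 := by
      intro h
      rw [h] at hs0
      simp at hs0
    have e : (-Real.sin (Real.pi * p) / Real.pi) * G = 1 := by
      rw [hr]
      field_simp
    have e2 : 8 * ((2 : ℝ) ^ (-(6 - p)) * G) - 4 * (Real.Gamma (6 - p) * Real.Gamma (1 - (6 - p)) / 1) -
        2 * (Real.Gamma (6 - p) * ((1 - (6 - p)) * Real.Gamma (1 - (6 - p))) / 1) -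
        Real.Gamma (6 - p) * ((2 - (6 - p)) * ((1 - (6 - p)) * Real.Gamma (1 - (6 - p)))) / 2 =
        G * ((2 : ℝ) ^ (p - 3) + 2 * p - 4 - p * (p - 1) / 2) := by
      rw [← e8, hG]
      ring
    rw [e2, ← mul_assoc, e, one_mul]

end Pool.Agent.Lib_helper5.R56
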